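import Pool.Agent.U866.OM.Stm

/-!
Project OM (helper866), package PSI: the function `psi k` has bounded derivatives.
-/

set_option autoImplicit false

namespace Pool.Agent.U908.OM

open Pool.Agent.H498R3.GB Pool.Agent.U866.OM
open scoped BigOperators ContDiff Topology Matrix

noncomputable section

lemma contDiff_pd' {m : ℕ} {f : E m → ℝ} (hf : ContDiff ℝ ∞ f) (i : Fin m) :
    ContDiff ℝ ∞ (pd i f) := by
  have h : ContDiff ℝ ∞ (fderiv ℝ f) := hf.fderiv_right (by simp)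
  exact h.clm_apply contDiff_const

lemma one_bd {m : ℕ} (i j : Fin m) : |(1 : Matrix (Fin m) (Fin m) ℝ) i j| ≤ 1 := by
  rw [Matrix.one_apply]; split_ifs <;> simp

lemma isBdd_const {m : ℕ} (c : ℝ) : IsBdd (fun _ : E m => c) := by
  have e : ∀ i : Fin m, pd i (fun _ : E m => c) = fun _ => (0 : ℝ) := fun i => by
    funext x; exact pd_const c x i
  refine ⟨contDiff_const, ⟨|c|, fun x => le_refl _⟩, ⟨0, fun x i => ?_⟩, ⟨0, fun x i j => ?_⟩⟩
  · rw [pd_const]; simp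
  · rw [e, pd_const]; simp

lemma isBdd_add {m : ℕ} {f g : E m → ℝ} (hf : IsBdd f) (hg : IsBdd g) :
    IsBdd (fun x => f x + g x) := by
  obtain ⟨sf, ⟨A0, a0⟩, ⟨A1, a1⟩, ⟨A2, a2⟩⟩ := hf
  obtain ⟨sg, ⟨B0, b0⟩, ⟨B1, b1⟩, ⟨B2, b2⟩⟩ := hg
  have e : ∀ j : Fin m, pd j (fun x => f x + g x) = fun x => pd j f x + pd j g x := fun j => by
    funext x; exact pd_add (diff_of sf x) (diff_of sg x) j
  refine ⟨sf.add sg, ⟨A0 + B0, fun x => ?_⟩, ⟨A1 + B1, fun x i => ?_⟩, ⟨A2 + B2, fun x i j => ?_⟩⟩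
  · exact (abs_add_le _ _).trans (add_le_add (a0 x) (b0 x))
  · rw [e]; exact (abs_add_le _ _).trans (add_le_add (a1 x i) (b1 x i))
  · rw [e, pd_add (diff_of (contDiff_pd' sf j) x) (diff_of (contDiff_pd' sg j) x)]
    exact (abs_add_le _ _).trans (add_le_add (a2 x i j) (b2 x i j))

lemma mul_bd {a b A B : ℝ} (ha : |a| ≤ A) (hb : |b| ≤ B) : |a * b| ≤ A * B := by
  rw [abs_mul]
  exact mul_le_mul ha hb (abs_nonneg _) ((abs_nonneg _).trans ha)

lemma isBdd_mul {m : ℕ} {f g : E m → ℝ} (hf : IsBdd f) (hg : IsBdd g) :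
    IsBdd (fun x => f x * g x) := by
  obtain ⟨sf, ⟨A0, a0⟩, ⟨A1, a1⟩, ⟨A2, a2⟩⟩ := hf
  obtain ⟨sg, ⟨B0, b0⟩, ⟨B1, b1⟩, ⟨B2, b2⟩⟩ := hg
  have e : ∀ j : Fin m, pd j (fun x => f x * g x) = fun x => f x * pd j g x + g x * pd j f x :=
    fun j => by funext x; exact pd_mul (diff_of sf x) (diff_of sg x) j
  refine ⟨sf.mul sg, ⟨A0 * B0, fun x => mul_bd (a0 x) (b0 x)⟩,
    ⟨A0 * B1 + B0 * A1, fun x i => ?_⟩,
    ⟨(A0 * B2 + B1 * A1) + (B0 * A2 + A1 * B1), fun x i j => ?_⟩⟩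
  · rw [e]
    exact (abs_add_le _ _).trans (add_le_add (mul_bd (a0 x) (b1 x i)) (mul_bd (b0 x) (a1 x i)))
  · have cf := contDiff_pd' sf j
    have cg := contDiff_pd' sg j
    rw [e, pd_add (diff_of (sf.mul cg) x) (diff_of (sg.mul cf) x),
      pd_mul (diff_of sf x) (diff_of cg x), pd_mul (diff_of sg x) (diff_of cf x)]
    refine (abs_add_le _ _).trans (add_le_add ((abs_add_le _ _).trans (add_le_add ?_ ?_))
      ((abs_add_le _ _).trans (add_le_add ?_ ?_)))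
    · exact mul_bd (a0 x) (b2 x i j)
    · exact mul_bd (b1 x j) (a1 x i)
    · exact mul_bd (b0 x) (a2 x i j)
    · exact mul_bd (a1 x j) (b1 x i)

lemma pd_comp {m : ℕ} {h : ℝ → ℝ} {h' : ℝ} (i j : Fin m) (x : E m) (hh : HasDerivAt h h' (x j)) :
    pd i (fun z : E m => h (z j)) x = h' * (1 : Matrix (Fin m) (Fin m) ℝ) i j := by
  have h1 : HasFDerivAt (fun z : E m => z j) (EuclideanSpace.proj (𝕜 := ℝ) j : E m →L[ℝ] ℝ) x :=
    (EuclideanSpace.proj (𝕜 := ℝ) j : E m →L[ℝ] ℝ).hasFDerivAt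
  have h2 := hh.comp_hasFDerivAt x h1
  have h3 := pd_of_hasFDerivAt h2 i
  simp only [Function.comp_def] at h3
  rw [h3]
  simp [Matrix.one_apply, eq_comm]

lemma isBdd_comp {m : ℕ} (j : Fin m) (h h1 h2 : ℝ → ℝ) (hs : ContDiff ℝ ∞ h)
    (d1 : ∀ t, HasDerivAt h (h1 t) t) (d2 : ∀ t, HasDerivAt h1 (h2 t) t)
    (b0 : ∀ t, |h t| ≤ 1) (b1 : ∀ t, |h1 t| ≤ 1) (b2 : ∀ t, |h2 t| ≤ 1) :
    IsBdd (fun x : E m => h (x j)) := by
  have e : ∀ i : Fin m, pd i (fun x : E m => h (x j)) = fun x =>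
      (1 : Matrix (Fin m) (Fin m) ℝ) i j * h1 (x j) := fun i => by
    funext x; rw [pd_comp i j x (d1 _)]; ring
  have dc : ∀ x : E m, DifferentiableAt ℝ (fun z : E m => h1 (z j)) x := fun x => by
    have h1' : HasFDerivAt (fun z : E m => z j) (EuclideanSpace.proj (𝕜 := ℝ) j : E m →L[ℝ] ℝ) x :=
      (EuclideanSpace.proj (𝕜 := ℝ) j : E m →L[ℝ] ℝ).hasFDerivAt
    exact ((d2 (x j)).comp_hasFDerivAt x h1').differentiableAt
  refine ⟨hs.comp (contDiff_coord j), ⟨1, fun x => b0 _⟩, ⟨1, fun x i => ?_⟩,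
    ⟨1, fun x i l => ?_⟩⟩
  · rw [e]
    simpa using mul_bd (one_bd i j) (b1 (x j))
  · rw [e, pd_const_mul _ (dc x), pd_comp i j x (d2 _)]
    have := mul_bd (one_bd l j) (mul_bd (b2 (x j)) (one_bd i j))
    simpa using this

lemma isBdd_cos {m : ℕ} (j : Fin m) : IsBdd (fun x : E m => Real.cos (x j)) :=
  isBdd_comp j Real.cos (fun t => - Real.sin t) (fun t => - Real.cos t) Real.contDiff_cos
    (fun t => Real.hasDerivAt_cos t) (fun t => (Real.hasDerivAt_sin t).neg)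
    (fun t => Real.abs_cos_le_one t) (fun t => by rw [abs_neg]; exact Real.abs_sin_le_one t)
    (fun t => by rw [abs_neg]; exact Real.abs_cos_le_one t)

lemma isBdd_sin {m : ℕ} (j : Fin m) : IsBdd (fun x : E m => Real.sin (x j)) :=
  isBdd_comp j Real.sin (fun t => Real.cos t) (fun t => - Real.sin t) Real.contDiff_sin
    (fun t => Real.hasDerivAt_sin t) (fun t => Real.hasDerivAt_cos t)
    (fun t => Real.abs_sin_le_one t) (fun t => Real.abs_cos_le_one t)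
    (fun t => by rw [abs_neg]; exact Real.abs_sin_le_one t)

theorem t_PSI : Pool.Agent.U866.OM.S_PSI := by
  intro k
  constructor
  · have := isBdd_add (isBdd_const (m := k + 3) 2)
      (isBdd_add (isBdd_mul (isBdd_cos (m := k + 3) 0) (isBdd_cos 1))
        (isBdd_mul (isBdd_sin 0) (isBdd_sin 2)))
    exact this
  · intro x
    unfold psi phi
    have h1 := abs_le.1 (mul_bd (Real.abs_cos_le_one (x 0)) (Real.abs_cos_le_one (x 1)))
    have h2 := abs_le.1 (mul_bd (Real.abs_sin_le_one (x 0)) (Real.abs_sin_le_one (x 2)))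
    linarith [h1.1, h2.1]

end

end Pool.Agent.U908.OM
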